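import Pool.Agent.K4H97.CE.MainA

set_option autoImplicit false

/-!
# The function `κ` with an explicit threshold

The descent law of `Pool.Agent.K4H97.CE` with numbers: all but few `n` reach a value `≤ y` after at most
`2400 log n` steps, with the power saving `y^(-0.048)`. So `κ(c) ≥ c / 22` for all `c ≥ 10^6`.
-/

namespace Pool.Agent.K4H86.Fix

open Pool.Agent.K4H97.CE Pool.Agent.TH930.LT

theorem entropy_lt : Real.binEntropy (63 / 100) < 0.952 * Real.log 2 := by
  have hl2 : 0 < Real.log 2 := Real.log_pos (by norm_num)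
  have g := Pool.Agent.H319R2.gibbs (63 / 100) (16 / 9) (by norm_num) (by norm_num) (by norm_num)
  have e1 : Real.log (1 + 16 / 9) = 2 * Real.log 5 - 2 * Real.log 3 := by
    rw [show (1 : ℝ) + 16 / 9 = 5 ^ 2 / 3 ^ 2 by norm_num, Real.log_div (by norm_num) (by norm_num),
      Real.log_pow, Real.log_pow]; push_cast; ring
  have e2 : Real.log (16 / 9) = 4 * Real.log 2 - 2 * Real.log 3 := by
    rw [show (16 : ℝ) / 9 = 2 ^ 4 / 3 ^ 2 by norm_num, Real.log_div (by norm_num) (by norm_num),
      Real.log_pow, Real.log_pow]; push_cast; ring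
  rw [e1, e2] at g
  have h3 := Pool.Agent.H319R2.log3_lower
  have h5 := Pool.Agent.H319R2.log5_upper
  linarith

theorem log3_upper : Real.log 3 ≤ 65 / 41 * Real.log 2 := by
  have h : Real.log ((3 : ℝ) ^ 41) ≤ Real.log ((2 : ℝ) ^ 65) :=
    Real.log_le_log (by positivity) (by norm_num)
  rw [Real.log_pow, Real.log_pow] at h
  push_cast at h
  linarith

theorem law_num : ∃ c : ℝ, 0.048 < c ∧ c ≤ 1 ∧ Law 2400 c := by
  have hl2 : 0.69 < Real.log 2 := by have := Real.log_two_gt_d9; linarith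
  have hl3 : 0 < Real.log 3 := Real.log_pos (by norm_num)
  have h3 := log3_upper
  obtain ⟨τ, p, c, hτ0, hτ1, hp1, hp2, hc1, hc2, hc3⟩ :=
    exists_param (p₀ := 63 / 100) (by norm_num) (by norm_num)
  have ha : 0.0008 < Real.log 2 - p * Real.log 3 := by
    have h4 : p * Real.log 3 ≤ 63 / 100 * Real.log 3 := mul_le_mul_of_nonneg_right hp2.le hl3.le
    linarith
  have hr0 := rate_pos (p := 63 / 100) (by norm_num)
  have he := entropy_lt
  have hrate : 0.048 < rate (63 / 100) := by
    unfold rate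
    have h5 : Real.binEntropy (63 / 100) / Real.log 2 < 0.952 := by
      rw [div_lt_iff₀ (by linarith)]
      exact he
    linarith
  obtain ⟨C, hC, h⟩ := time_law hτ0 hτ1 hp1 (by linarith) (B := 2400)
    (by norm_num) (by linarith) (c := c) (by linarith) (by linarith) hc3
  exact ⟨c, by linarith, by linarith, law_of (by norm_num) hC h⟩

/-- the function `κ` -/
theorem exists_kappa_num : ∃ κ : ℝ → ℝ, (∀ c : ℝ, 2 / Real.log (4 / 3) < c → 0 < κ c) ∧
    (∀ c : ℝ, 1000000 ≤ c → c / 22 ≤ κ c) ∧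
    ∀ c : ℝ, 2 / Real.log (4 / 3) < c → ENNReal.ofReal c < L →
      κ c * (L⁻¹).toReal ≤ 1 - beta c ∧ 1 - beta c ≤ c * (L⁻¹).toReal := by
  classical
  obtain ⟨a₁, ha₁, -, hlaw₁⟩ := law_num
  have h0 : ∀ c : ℝ, 2 / Real.log (4 / 3) < c → ∃ κ : ℝ, 0 < κ ∧ (1000000 ≤ c → c / 22 ≤ κ) ∧
      (ENNReal.ofReal c < L → κ * (L⁻¹).toReal ≤ 1 - beta c) := by
    intro c hc
    have hc0 : 0 < c := mu_pos.trans hc
    by_cases hcc : 1000000 ≤ c
    · have hBc : (2400 : ℝ) < c := by linarith
      have hk : 0 < a₁ * (c - 2400) := by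
        have : 0 < c - 2400 := by linarith
        have : 0 < a₁ := by linarith
        positivity
      refine ⟨a₁ * (c - 2400) * c / (c + a₁ * (c - 2400)), by positivity, fun _ => ?_, fun hcL =>
        exp_upper hc0 hBc (by linarith) hlaw₁ hcL⟩
      set k := a₁ * (c - 2400) with hkdef
      have hk2 : c / 21 ≤ k := by
        have h2 : c * 0.9976 ≤ c - 2400 := by linarith
        have h3 : 0.048 * (c * 0.9976) ≤ a₁ * (c - 2400) :=
          mul_le_mul ha₁.le h2 (by positivity) (by linarith)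
        rw [hkdef]
        linarith
      rw [div_le_div_iff₀ (by norm_num) (by positivity)]
      nlinarith
    · obtain ⟨B, hB1, hB2⟩ := exists_between hc
      obtain ⟨a, ha, -, hlaw⟩ := law_one hB1
      have hk : 0 < a * (c - B) := by
        have : 0 < c - B := by linarith
        positivity
      exact ⟨a * (c - B) * c / (c + a * (c - B)), by positivity, fun h => absurd h hcc, fun hcL =>
        exp_upper hc0 hB2 ha hlaw hcL⟩
  choose! κ hκ1 hκ2 hκ3 using h0
  have hmu : 2 / Real.log (4 / 3) < 41 := by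
    have h1 : (1 / 4 : ℝ) ≤ Real.log (4 / 3) := by
      have h2 := Real.one_sub_inv_le_log_of_pos (show (0 : ℝ) < 4 / 3 by norm_num)
      norm_num at h2 ⊢
      exact h2
    rw [div_lt_iff₀ (by linarith)]
    linarith
  exact ⟨κ, hκ1, fun c hc => hκ2 c (by linarith) hc, fun c hc hcL => ⟨hκ3 c hc hcL, exp_lower hc hcL⟩⟩

end Pool.Agent.K4H86.Fix
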